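import Mathlib
import Pool.Agent.Helper119.HelixSupp

open Real Set Filter Topology

namespace Pool.Agent.Results.MP_861c96_gt.HelixNotMinimal

/-- Three-dimensional Euclidean space. -/
abbrev E3 := EuclideanSpace ℝ (Fin 3)

/-- Length of a curve parametrised by the unit interval: the supremum of the lengths of the
inscribed polygons. -/
noncomputable def curveLength (γ : ℝ → E3) : ENNReal := eVariationOn γ (Icc 0 1)

/-- Admissible curve: continuous and rectifiable on the unit interval, and its image meets every
affine plane (written as the set of all x with inner product a with a non-zero vector n) that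
meets the closed unit ball. -/
def IsAdmissible (γ : ℝ → E3) : Prop :=
  ContinuousOn γ (Icc 0 1) ∧ curveLength γ ≠ ⊤ ∧
    ∀ (n : E3) (a : ℝ), n ≠ 0 → (∃ x ∈ Metric.closedBall (0 : E3) 1, inner ℝ n x = a) →
      ∃ t ∈ Icc (0 : ℝ) 1, inner ℝ n (γ t) = a

/-- The infimum of the lengths of the admissible curves. -/
noncomputable def Lstar : ENNReal := ⨅ γ : {γ : ℝ → E3 // IsAdmissible γ}, curveLength γ.1

/-- The circular helix (a circle when c = 0). -/
noncomputable def helix (r c t : ℝ) : E3 := !₂[r * cos t, r * sin t, c * t]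

/-- The path, parametrised by the interval from 0 to 3, which runs through the straight segment
from p to the initial point of the half-turn helix T(helix), t in the interval from t₀ to t₀ + π,
then through this half-turn helix, then through the straight segment from its terminal point
to q. -/
noncomputable def helixPath (T : E3 → E3) (r c t₀ : ℝ) (p q : E3) (s : ℝ) : E3 :=
  if s ≤ 1 then AffineMap.lineMap p (T (helix r c t₀)) s
  else if s ≤ 2 then T (helix r c (t₀ + (s - 1) * π))
  else AffineMap.lineMap (T (helix r c (t₀ + π))) q (s - 2)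

/-- A curve is a half-turn helix with one straight segment attached at each of its two endpoints
if, for some isometry T of space, it is a monotone reparametrisation of such a path. -/
def IsHelixWithSegments (γ : ℝ → E3) : Prop :=
  ∃ (T : E3 ≃ᵢ E3) (r c t₀ : ℝ) (p q : E3) (σ : ℝ → ℝ), 0 < r ∧
    MonotoneOn σ (Icc 0 1) ∧ σ '' Icc 0 1 = Icc 0 3 ∧
    ∀ x ∈ Icc (0 : ℝ) 1, γ x = helixPath T r c t₀ p q (σ x)

open Pool.Agent.Helper119.Helix in
/-- Variation is unchanged by a linear isometry. -/
lemma variation_isometry (L : E3 ≃ₗᵢ[ℝ] E3) (f : ℝ → E3) (s : Set ℝ) :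
    eVariationOn (fun x => L (f x)) s = eVariationOn f s := by
  apply le_antisymm
  · have := variation_le (C := 1) (f := fun x => L (f x)) (g := f) (s := s) (by
      intro x _ y _
      rw [one_mul, L.edist_map])
    simpa using this
  · have := variation_le (C := 1) (g := fun x => L (f x)) (f := f) (s := s) (by
      intro x _ y _
      rw [one_mul, L.edist_map])
    simpa using this

/-- A path on the interval from 0 to 3 that supports all directions is, after rescaling time and
applying a linear isometry, an admissible curve of the same length. -/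
lemma admissible_of_support (L : E3 ≃ₗᵢ[ℝ] E3) {P : ℝ → E3} (hP : Continuous P)
    (hfin : eVariationOn P (Icc 0 3) ≠ ⊤)
    (h : ∀ u : E3, ‖u‖ = 1 → ∃ s ∈ Icc (0 : ℝ) 3, 1 ≤ inner ℝ u (P s)) :
    IsAdmissible (fun x => L (P (3 * x))) ∧
      curveLength (fun x => L (P (3 * x))) = eVariationOn P (Icc 0 3) := by
  have himg : (fun x : ℝ => 3 * x) '' Icc 0 1 = Icc 0 3 := by
    rw [Set.image_mul_left_Icc (by norm_num) (by norm_num)]
    norm_num
  have hlen : curveLength (fun x => L (P (3 * x))) = eVariationOn P (Icc 0 3) := by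
    unfold curveLength
    rw [variation_isometry L (fun x => P (3 * x))]
    have := eVariationOn.comp_eq_of_monotoneOn P (t := Icc (0 : ℝ) 1) (fun x : ℝ => 3 * x)
      (by intro x _ y _ hxy; simp only; linarith)
    rw [himg] at this
    exact this
  have hcont : Continuous (fun x => L (P (3 * x))) :=
    L.continuous.comp (hP.comp (by fun_prop))
  refine ⟨⟨hcont.continuousOn, by rw [hlen]; exact hfin, ?_⟩, hlen⟩
  rintro n a hn ⟨x, hx, hxa⟩
  have hn0 : 0 < ‖n‖ := norm_pos_iff.mpr hn
  have hx1 : ‖x‖ ≤ 1 := by simpa using hx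
  have habs : |a| ≤ ‖n‖ := by
    rw [← hxa]
    calc |inner ℝ n x| ≤ ‖n‖ * ‖x‖ := abs_real_inner_le_norm n x
      _ ≤ ‖n‖ * 1 := mul_le_mul_of_nonneg_left hx1 hn0.le
      _ = ‖n‖ := mul_one _
  have habs' := abs_le.mp habs
  -- both signs
  have key : ∀ m : E3, ‖m‖ = ‖n‖ → ∃ t ∈ Icc (0 : ℝ) 1, ‖n‖ ≤ inner ℝ m (L (P (3 * t))) := by
    intro m hm
    have hu : ‖(‖n‖⁻¹ • L.symm m)‖ = 1 := by
      rw [norm_smul, L.symm.norm_map, hm, norm_inv, norm_norm, inv_mul_cancel₀ hn0.ne']
    obtain ⟨s, hs, hs1⟩ := h _ hu
    refine ⟨s / 3, ⟨by linarith [hs.1], by linarith [hs.2]⟩, ?_⟩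
    have e : 3 * (s / 3) = s := by ring
    rw [e]
    rw [inner_smul_left] at hs1
    have e2 : inner ℝ (L.symm m) (P s) = inner ℝ m (L (P s)) := by
      rw [← L.inner_map_map, L.apply_symm_apply]
    rw [e2] at hs1
    simp only [conj_trivial] at hs1
    rw [inv_mul_eq_div, le_div_iff₀ hn0] at hs1
    linarith
  obtain ⟨t1, ht1, h1⟩ := key n rfl
  obtain ⟨t2, ht2, h2⟩ := key (-n) (norm_neg n)
  rw [inner_neg_left] at h2
  have hf : ContinuousOn (fun x => inner ℝ n (L (P (3 * x)))) (Icc (0 : ℝ) 1) :=
    (continuous_const.inner hcont).continuousOn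
  have := isPreconnected_Icc.intermediate_value ht2 ht1 hf
  obtain ⟨t, ht, hta⟩ := this (show a ∈ Icc _ _ from ⟨by linarith, by linarith⟩)
  exact ⟨t, ht, hta⟩

lemma convex_lt {s x y : ℝ} (h0 : 0 ≤ s) (h1 : s ≤ 1) (hx : x < 1) (hy : y < 1)
    (h : (1 - s) * x + s * y = 1) : False := by
  rcases h1.lt_or_eq with h1 | h1
  · nlinarith [mul_pos (sub_pos.mpr h1) (sub_pos.mpr hx), mul_nonneg h0 (sub_pos.mpr hy).le]
  · rw [h1] at h; linarith

open Pool.Agent.Helper119.Helix in
/-- Every admissible curve of the type considered can be strictly shortened. -/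
theorem improvement (γ : ℝ → E3) (hγ : IsAdmissible γ) (hh : IsHelixWithSegments γ) :
    ∃ γ' : ℝ → E3, IsAdmissible γ' ∧ curveLength γ' < curveLength γ := by
  obtain ⟨hcont, hfin, hmeet⟩ := hγ
  obtain ⟨T, r, c, t₀, p, q, σ, hr, hσ, hσi, hγσ⟩ := hh
  set A := T.toRealAffineIsometryEquiv with hA
  set L : E3 ≃ₗᵢ[ℝ] E3 := A.linearIsometryEquiv with hL
  set o : E3 := T.symm 0 with ho
  have hT : ∀ x, T x = L (x - o) := by
    intro x
    have h1 := A.map_vsub x o
    have h2 : A o = 0 := by
      show T o = 0
      rw [ho]; exact T.apply_symm_apply 0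
    rw [h2] at h1
    have h3 : A x = T x := rfl
    rw [h3] at h1
    simpa using h1.symm
  set e : E3 := T.symm p - o with he
  set f : E3 := T.symm q - o with hf
  let d : D := ⟨r, c, -(o 0), -(o 1), -(o 2), t₀, e 0, e 1, e 2, f 0, f 1, f 2⟩
  have hH : ∀ t, T (helix r c t) = L (d.H t) := by
    intro t
    rw [hT]
    congr 1
    ext i
    fin_cases i <;> simp [helix, D.H, d, sub_eq_add_neg]
  have hE : L d.E = p := by
    have : d.E = e := by
      ext i
      fin_cases i <;> simp [D.E, d]
    rw [this, he, ← hT, T.apply_symm_apply]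
  have hF : L d.F = q := by
    have : d.F = f := by
      ext i
      fin_cases i <;> simp [D.F, d]
    rw [this, hf, ← hT, T.apply_symm_apply]
  have hpath : ∀ s, helixPath T r c t₀ p q s = L (d.path s) := by
    intro s
    unfold helixPath D.path
    split_ifs with h1 h2
    · rw [hH, ← hE]
      simp [AffineMap.lineMap_apply, d]
    · rw [hH]; rfl
    · rw [hH, ← hF]
      simp [AffineMap.lineMap_apply, d]
  -- length
  have hlen : curveLength γ = eVariationOn d.path (Icc 0 3) := by
    unfold curveLength
    have h1 : eVariationOn γ (Icc 0 1) =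
        eVariationOn ((fun s => L (d.path s)) ∘ σ) (Icc 0 1) := by
      apply eVariationOn.congr
      intro x hx
      rw [hγσ x hx, hpath]; rfl
    rw [h1, eVariationOn.comp_eq_of_monotoneOn _ σ hσ, hσi, variation_isometry]
  -- support condition
  have hS : d.S := by
    intro u0 u1 u2 hu
    set u : E3 := !₂[u0, u1, u2] with hu'
    have hnorm : ‖u‖ = 1 := by
      have h1 := norm3 u
      have h2 : ‖u‖ ^ 2 = 1 := by
        rw [h1, ← hu]; simp [hu']
      have h3 := norm_nonneg u
      nlinarith
    have hLu : ‖L u‖ = 1 := by rw [L.norm_map, hnorm]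
    have hne : L u ≠ 0 := by
      intro h0; rw [h0, norm_zero] at hLu; norm_num at hLu
    obtain ⟨x, hx, hx1⟩ := hmeet (L u) 1 hne ⟨L u, by simp [hLu], by
      rw [real_inner_self_eq_norm_sq, hLu]; norm_num⟩
    rw [hγσ x hx, hpath, L.inner_map_map] at hx1
    have hσx : σ x ∈ Icc (0 : ℝ) 3 := by rw [← hσi]; exact mem_image_of_mem σ hx
    have iH : ∀ t, inner ℝ u (d.H t) = d.hv u0 u1 u2 t := by
      intro t
      rw [D.inner_H]; simp [hu']
    have iE : inner ℝ u d.E = d.ev u0 u1 u2 := by
      rw [D.inner_E]; simp [hu']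
    have iF : inner ℝ u d.F = d.fv u0 u1 u2 := by
      rw [D.inner_F]; simp [hu']
    have hpi := Real.pi_pos
    set s := σ x with hs
    unfold D.path at hx1
    split_ifs at hx1 with h1 h2
    · rw [AffineMap.lineMap_apply, vsub_eq_sub, vadd_eq_add, inner_add_right,
        inner_smul_right, inner_sub_right, iH, iE] at hx1
      by_cases hE1 : 1 ≤ d.ev u0 u1 u2
      · right; left; exact hE1
      · left
        refine ⟨d.t0, ⟨le_refl _, by linarith⟩, ?_⟩
        push Not at hE1
        by_contra hlt
        push Not at hlt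
        exact convex_lt hσx.1 h1 hE1 hlt (by linarith)
    · left
      rw [iH] at hx1
      refine ⟨d.tt s, ⟨?_, ?_⟩, hx1.ge⟩
      · unfold D.tt
        push Not at h1
        nlinarith
      · unfold D.tt
        nlinarith
    · rw [AffineMap.lineMap_apply, vsub_eq_sub, vadd_eq_add, inner_add_right,
        inner_smul_right, inner_sub_right, iH, iF] at hx1
      by_cases hF1 : 1 ≤ d.fv u0 u1 u2
      · right; right; exact hF1
      · left
        refine ⟨d.t0 + π, ⟨by linarith, le_refl _⟩, ?_⟩
        push Not at hF1 h2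
        by_contra hlt
        push Not at hlt
        exact convex_lt (s := s - 2) (by linarith) (by linarith [hσx.2]) hlt hF1 (by linarith)
  obtain ⟨P, hPc, hPlen, hPs⟩ := D.improve (d := d) hr hS (by rw [← hlen]; exact hfin)
  have hPfin : eVariationOn P (Icc 0 3) ≠ ⊤ := ne_top_of_lt hPlen
  obtain ⟨hadm, hlen'⟩ := admissible_of_support L hPc hPfin hPs
  exact ⟨_, hadm, by rw [hlen', hlen]; exact hPlen⟩

open Pool.Agent.Helper119.Helix in
/-- Sanity check, not used below: there are admissible curves of the type considered. -/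
theorem exists_admissible_helix : ∃ γ : ℝ → E3, IsAdmissible γ ∧ IsHelixWithSegments γ := by
  let d : D := ⟨10, 0, 0, 0, 0, 0, 0, -10, 10, 0, -10, -10⟩
  have hpi := Real.pi_pos
  have hS : d.S := by
    intro u0 u1 u2 hu
    by_contra hcon
    push Not at hcon
    obtain ⟨h1, h2, h3⟩ := hcon
    have a1 := h1 0 ⟨le_refl _, by show (0 : ℝ) ≤ 0 + π; linarith⟩
    have a2 := h1 π ⟨hpi.le, by show π ≤ 0 + π; linarith⟩
    have a3 := h1 (π / 2) ⟨by show (0 : ℝ) ≤ π / 2; linarith, by show π / 2 ≤ 0 + π; linarith⟩
    simp only [D.hv, D.ev, D.fv, d, cos_zero, sin_zero, cos_pi, sin_pi, cos_pi_div_two,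
      sin_pi_div_two] at a1 a2 a3 h2 h3
    nlinarith
  have hfin : eVariationOn d.path (Icc 0 3) ≠ ⊤ := by
    have e1 := eVariationOn.Icc_add_Icc d.path (s := univ) (a := 0) (b := 1) (c := 3)
      (by norm_num) (by norm_num) (mem_univ _)
    have e2 := eVariationOn.Icc_add_Icc d.path (s := univ) (a := 1) (b := 2) (c := 3)
      (by norm_num) (by norm_num) (mem_univ _)
    simp only [univ_inter] at e1 e2
    rw [← e1, ← e2]
    have hline : ∀ (x y : E3) (a b : ℝ),
        eVariationOn (fun s : ℝ => AffineMap.lineMap x y s) (Icc a b) ≠ ⊤ := by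
      intro x y a b
      have hL := (lipschitzWith_lineMap x y (𝕜 := ℝ)).locallyBoundedVariationOn (Icc a b)
      by_cases hab : a ≤ b
      · have := hL a b (left_mem_Icc.mpr hab) (right_mem_Icc.mpr hab)
        rwa [inter_self] at this
      · rw [Icc_eq_empty hab]
        simp
    simp only [ne_eq, ENNReal.add_eq_top, not_or]
    refine ⟨?_, ?_, ?_⟩
    · have : eVariationOn d.path (Icc 0 1) =
          eVariationOn (fun s : ℝ => AffineMap.lineMap d.E (d.H d.t0) s) (Icc 0 1) := by
        apply eVariationOn.congr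
        intro x hx
        unfold D.path
        rw [if_pos hx.2]
      rw [this]; exact hline _ _ _ _
    · have hid : eVariationOn (id : ℝ → ℝ) (Icc 1 2) ≠ ⊤ := by
        have := (monotoneOn_id (s := Icc (1 : ℝ) 2)).eVariationOn_eq
          (left_mem_Icc.mpr one_le_two) (right_mem_Icc.mpr one_le_two)
        rw [inter_self] at this
        rw [this]
        exact ENNReal.ofReal_ne_top
      have hle := variation_le (C := ENNReal.ofReal (10 * π)) (f := d.path) (g := (id : ℝ → ℝ))
        (s := Icc 1 2) (by
          intro x hx y hy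
          apply D.edist_le_of_sq (by positivity)
          rw [D.dist_path_mid hx hy]
          have hcos := Real.one_sub_sq_div_two_le_cos (x := d.tt x - d.tt y)
          have htt : d.tt x - d.tt y = (x - y) * π := by simp only [D.tt]; ring
          have hdist : dist (id x) (id y) ^ 2 = (x - y) ^ 2 := by
            simp [Real.dist_eq, sq_abs]
          rw [htt] at hcos ⊢
          rw [hdist]
          show 2 * (10 : ℝ) ^ 2 * (1 - cos ((x - y) * π)) + 0 ^ 2 * ((x - y) * π) ^ 2 ≤ _
          nlinarith)
      exact ne_top_of_le_ne_top (ENNReal.mul_ne_top ENNReal.ofReal_ne_top hid) hle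
    · have : eVariationOn d.path (Icc 2 3) =
          eVariationOn (fun s : ℝ => AffineMap.lineMap (d.H (d.t0 + π)) d.F (s - 2))
            (Icc 2 3) := by
        apply eVariationOn.congr
        intro x hx
        unfold D.path
        rcases hx.1.eq_or_lt with h2 | h2
        · subst h2
          rw [if_neg (by norm_num), if_pos (le_refl _)]
          simp [D.tt]
          norm_num
        · rw [if_neg (by linarith), if_neg (by linarith)]
      rw [this]
      have h2 := eVariationOn.comp_eq_of_monotoneOn
        (fun s : ℝ => AffineMap.lineMap (d.H (d.t0 + π)) d.F s) (t := Icc (2 : ℝ) 3)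
        (fun s : ℝ => s - 2) (by intro x _ y _ hxy; simp only; linarith)
      have h3 : (fun s : ℝ => s - 2) '' Icc 2 3 = Icc 0 1 := by
        rw [Set.image_sub_const_Icc]; norm_num
      rw [h3] at h2
      have h4 : eVariationOn (fun s : ℝ => AffineMap.lineMap (d.H (d.t0 + π)) d.F (s - 2))
          (Icc 2 3) = _ := h2
      rw [h4]
      exact hline _ _ _ _
  obtain ⟨hadm, -⟩ := admissible_of_support (LinearIsometryEquiv.refl ℝ E3)
    (P := d.path) D.path_continuous hfin (fun u hu => hS.support hu)
  refine ⟨_, hadm, IsometryEquiv.refl E3, 10, 0, 0, d.E, d.F, fun x => 3 * x, by norm_num,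
    by intro x _ y _ hxy; simp only; linarith, ?_, ?_⟩
  · rw [Set.image_mul_left_Icc (by norm_num) (by norm_num)]
    norm_num
  · intro x _
    have hH : ∀ t, helix 10 0 t = d.H t := by
      intro t
      ext i
      fin_cases i <;> simp [helix, D.H, d]
    show d.path (3 * x) = _
    unfold helixPath D.path
    have hT : ∀ z : E3, (IsometryEquiv.refl E3) z = z := fun _ => rfl
    simp only [hT, hH]
    rfl

/-- Every admissible curve consisting of a half-turn helix together with one straight segment at
each end is strictly longer than some other admissible curve; in particular no admissible curve of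
minimal length is of this kind. -/
theorem result :
    (∀ γ : ℝ → E3, IsAdmissible γ → IsHelixWithSegments γ →
      ∃ γ' : ℝ → E3, IsAdmissible γ' ∧ curveLength γ' < curveLength γ) ∧
    ¬ ∃ γ : ℝ → E3, IsAdmissible γ ∧ curveLength γ = Lstar ∧ IsHelixWithSegments γ := by
  refine ⟨improvement, ?_⟩
  rintro ⟨γ, hγ, hlen, hh⟩
  obtain ⟨γ', hγ', hlt⟩ := improvement γ hγ hh
  have h1 : Lstar ≤ curveLength γ' := iInf_le (fun γ : {γ : ℝ → E3 // IsAdmissible γ} =>
    curveLength γ.1) ⟨γ', hγ'⟩
  rw [hlen] at hlt
  exact absurd hlt (not_lt.mpr h1)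

end Pool.Agent.Results.MP_861c96_gt.HelixNotMinimal
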